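import Pool.Agent.MP_d5eec5_gt.H77.GBasic

/-! Row R1: an innermost backtrack can be removed. -/

namespace Pool.Agent.MP_d5eec5_gt.H77

open Pool.Agent.MP_d5eec5_gt.H48 Finset

theorem r1_alt (f : ℕ → ℕ) (h0 : f 0 = 0) (r n : ℕ) :
    (∑ k ∈ range n, if k % 2 = r % 2 then f k + f (k + 1) else 0) +
        (if n % 2 = r % 2 then f n else 0) =
      (∑ k ∈ range n, if k % 2 = r % 2 then 0 else f k + f (k + 1)) +
        (if n % 2 = r % 2 then 0 else f n) := by
  induction n with
  | zero => simp [h0]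
  | succ n ih =>
    rw [sum_range_succ, sum_range_succ]
    split_ifs at ih ⊢ <;> omega

theorem r1_letter {τ η : Fin 3} {w : Wd} {p : ℕ → ℚ} (h : Fit τ η w p) {t : ℕ} {x : Fin 3}
    (ht : t ≤ w.length + 1) (h1 : (x.val : ℚ) < p t) (h2 : p t < (x.val : ℚ) + 1) :
    ∃ s, t = s + 1 ∧ w[s]? = some x := by
  have key : ∀ y : Fin 3, p t = (y.val : ℚ) → False := fun y e => by
    rw [e] at h1 h2
    have a1 : x.val < y.val := by exact_mod_cast h1
    have a2 : y.val < x.val + 1 := by exact_mod_cast h2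
    omega
  rcases t with _ | s
  · exact (key τ h.h0).elim
  rcases Nat.lt_or_ge s w.length with hs | hs
  · refine ⟨s, rfl, ?_⟩
    obtain ⟨a1, a2⟩ := h.mem s w[s] (List.getElem?_eq_getElem hs)
    have b1 : x.val < w[s].val + 1 := by exact_mod_cast h1.trans a2
    have b2 : w[s].val < x.val + 1 := by exact_mod_cast a1.trans h2
    rw [List.getElem?_eq_getElem hs, Fin.ext (show w[s].val = x.val by omega)]
  · obtain rfl : s = w.length := by omega
    exact (key η h.h1).elim

theorem r1_fit {τ η : Fin 3} {a b : Wd} {x y : Fin 3} {p : ℕ → ℚ}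
    (h : Fit τ η (a ++ x :: y :: b) p) : Fit τ η (a ++ b) (drop2 a.length p) := by
  have hl : (a ++ x :: y :: b).length = (a ++ b).length + 2 := by simp; omega
  have hl' : a.length ≤ (a ++ b).length := by simp
  refine ⟨by simpa [drop2] using h.h0, ?_, fun j z hz => ?_, fun s hs t ht e => ?_⟩
  · have := h.h1
    rw [hl] at this
    unfold drop2
    rwa [if_neg (by omega)]
  · unfold drop2
    split_ifs with hj
    · refine h.mem j z ?_
      rwa [List.getElem?_append_left (by omega)] at hz ⊢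
    · refine h.mem (j + 2) z ?_
      rw [List.getElem?_append_right (by omega)] at hz ⊢
      rwa [show j + 2 - a.length = j - a.length + 1 + 1 by omega]
  · rw [Set.mem_Iic] at hs ht
    unfold drop2 at e
    split_ifs at e <;> have := h.inj (Set.mem_Iic.2 (by omega)) (Set.mem_Iic.2 (by omega)) e <;>
      omega

theorem r1_of : StmtG0 → StmtSplit2 → StmtR1 := by
  intro hG hS v hv
  obtain ⟨p, hp, hX⟩ := hG.1 1 2 v (by decide)
  have hne : ((range v.length).filter fun i => ∃ x, v[i]? = some x ∧ v[i + 1]? = some x).Nonempty := by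
    rw [List.isChain_iff_getElem] at hv
    push Not at hv
    obtain ⟨i, hi, e⟩ := hv
    exact ⟨i, mem_filter.2 ⟨mem_range.2 (by omega), v[i], List.getElem?_eq_getElem _,
      by rw [e]; exact List.getElem?_eq_getElem _⟩⟩
  obtain ⟨i, hi, hmin⟩ := exists_min_image _ (fun i => |p (i + 1) - p (i + 2)|) hne
  obtain ⟨x, hx1, hx2⟩ := (mem_filter.1 hi).2
  have hil : i + 1 < v.length := (List.getElem?_eq_some_iff.1 hx2).1
  have hmin' : ∀ s, v[s]? = some x → v[s + 1]? = some x →
      |p (i + 1) - p (i + 2)| ≤ |p (s + 1) - p (s + 2)| := fun s h1 h2 =>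
    hmin s (mem_filter.2 ⟨mem_range.2 (List.getElem?_eq_some_iff.1 h1).1, x, h1, h2⟩)
  have hu := hp.mem i x hx1
  have hw := hp.mem (i + 1) x hx2
  have hlet : ∀ t ≤ v.length + 1, btw (p (i + 1)) (p (i + 2)) (p t) →
      ∃ s, t = s + 1 ∧ v[s]? = some x := fun t ht hb =>
    r1_letter hp ht ((lt_min hu.1 hw.1).trans hb.1) (hb.2.trans (max_lt hu.2 hw.2))
  have hcons : ∀ t ≤ v.length, btw (p (i + 1)) (p (i + 2)) (p t) →
      ¬ btw (p (i + 1)) (p (i + 2)) (p (t + 1)) := fun t ht h1 h2 => by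
    obtain ⟨s, rfl, e1⟩ := hlet t (by omega) h1
    obtain ⟨s', e, e2⟩ := hlet (s + 1 + 1) (by omega) h2
    obtain rfl : s' = s + 1 := by omega
    have := hmin' s e1 e2
    rw [btw_iff] at h1 h2
    rcases h1 with h1 | h1 <;> rcases h2 with h2 | h2 <;>
      rcases abs_cases (p (i + 1) - p (i + 2)) with h3 | h3 <;>
      rcases abs_cases (p (s + 1) - p (s + 2)) with h4 | h4 <;> linarith [h1.1, h1.2, h2.1, h2.2]
  have hb0 : ¬ btw (p (i + 1)) (p (i + 2)) (p i) := fun h1 => by
    obtain ⟨s, rfl, e1⟩ := hlet i (by omega) h1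
    have := hmin' s e1 hx1
    rw [btw_iff] at h1
    rcases h1 with h1 | h1 <;> rcases abs_cases (p (s + 1 + 1) - p (s + 1 + 2)) with h3 | h3 <;>
      rcases abs_cases (p (s + 1) - p (s + 2)) with h4 | h4 <;> linarith [h1.1, h1.2]
  have hb3 : ¬ btw (p (i + 1)) (p (i + 2)) (p (i + 3)) := fun h1 => by
    obtain ⟨s, e, e1⟩ := hlet (i + 3) (by omega) h1
    obtain rfl : s = i + 2 := by omega
    have := hmin' (i + 1) hx2 e1
    rw [btw_iff] at h1
    rcases h1 with h1 | h1 <;> rcases abs_cases (p (i + 1) - p (i + 2)) with h3 | h3 <;>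
      rcases abs_cases (p (i + 1 + 1) - p (i + 1 + 2)) with h4 | h4 <;> linarith [h1.1, h1.2]
  obtain ⟨a, b, rfl, rfl⟩ : ∃ a b : Wd, v = a ++ x :: x :: b ∧ i = a.length := by
    refine ⟨v.take i, v.drop (i + 2), ?_, by rw [List.length_take]; omega⟩
    rw [← (List.getElem?_eq_some_iff.1 hx2).2, ← List.drop_eq_getElem_cons hil,
      (List.getElem?_eq_some_iff.1 hx2).2, ← (List.getElem?_eq_some_iff.1 hx1).2,
      ← List.drop_eq_getElem_cons (by omega), List.take_append_drop]
  refine ⟨a, x, b, rfl, (IG_le (r1_fit hp)).trans (le_of_le_of_eq ?_ hX)⟩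
  have hl : (a ++ x :: x :: b).length = (a ++ b).length + 2 := by simp; omega
  have hl' : a.length ≤ (a ++ b).length := by simp
  have hinj := hp.inj
  have h0 := hp.h0
  have h1 := hp.h1
  rw [hl] at hinj hlet hcons h1 ⊢
  generalize (a ++ b).length = m at *
  generalize a.length = i at *
  have hs := hS m i p hinj hl'
  have hne : ∀ s t, s ≤ m + 3 → t ≤ m + 3 → s ≠ t → p s ≠ p t := fun s t hs ht h e =>
    h (hinj (Set.mem_Iic.2 hs) (Set.mem_Iic.2 ht) e)
  let f : ℕ → ℕ := fun t => if btw (p (i + 1)) (p (i + 2)) (drop2 i p t) then 1 else 0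
  have hd : ∀ k, k ≠ i → ∃ t, drop2 i p k = p t ∧ drop2 i p (k + 1) = p (t + 1) ∧
      ((t = k ∧ k < i) ∨ (t = k + 2 ∧ i < k)) := fun k hk => by
    unfold drop2
    rcases lt_or_gt_of_ne hk with h | h
    · exact ⟨k, if_pos h.le, if_pos h, Or.inl ⟨rfl, h⟩⟩
    · exact ⟨k + 2, if_neg (by omega), if_neg (by omega), Or.inr ⟨rfl, h⟩⟩
  have hf : ∀ k ≤ m, k ≠ i →
      c1 (p (i + 1)) (p (i + 2)) (drop2 i p k) (drop2 i p (k + 1)) = f k + f (k + 1) :=
    fun k hk hki => by
      obtain ⟨t, e1, e2, ht⟩ := hd k hki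
      have := hcons t (by omega)
      simp only [f, c1, e1, e2]
      by_cases q1 : btw (p (i + 1)) (p (i + 2)) (p t) <;>
        by_cases q2 : btw (p (i + 1)) (p (i + 2)) (p (t + 1)) <;> simp_all
  have fi : f i = 0 := if_neg (by simpa [drop2] using hb0)
  have fi' : f (i + 1) = 0 := if_neg (by simpa [drop2] using hb3)
  have f0 : f 0 = 0 := if_neg fun h => by
    obtain ⟨s, e, -⟩ := hlet 0 (by omega) (by simpa [drop2] using h)
    omega
  have fm : f (m + 1) = 0 := if_neg fun h => by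
    obtain ⟨s, e, e1⟩ := hlet (m + 3) (by omega) (by
      unfold drop2 at h; rwa [if_neg (by omega)] at h)
    have := (List.getElem?_eq_some_iff.1 e1).1
    omega
  have ha := r1_alt f f0 i (m + 1)
  have him : i ∈ range (m + 1) := mem_range.2 (by omega)
  rw [fm, ite_self, ← add_sum_erase _ _ him, ← add_sum_erase _ _ him, fi, fi'] at ha
  simp only [add_zero, ite_self, zero_add] at ha
  have hle : (∑ k ∈ (range (m + 1)).erase i,
        (if k % 2 = i % 2 then c1 (p i) (p (i + 3)) (drop2 i p k) (drop2 i p (k + 1)) else 0)) +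
      (∑ k ∈ (range (m + 1)).erase i, if k % 2 = i % 2 then 0 else f k + f (k + 1)) ≤
      (∑ k ∈ (range (m + 1)).erase i,
        if k % 2 = i % 2 then
          c1 (p i) (p (i + 1)) (drop2 i p k) (drop2 i p (k + 1)) +
            c1 (p (i + 2)) (p (i + 3)) (drop2 i p k) (drop2 i p (k + 1))
        else c1 (p (i + 1)) (p (i + 2)) (drop2 i p k) (drop2 i p (k + 1))) +
      ∑ k ∈ (range (m + 1)).erase i, if k % 2 = i % 2 then f k + f (k + 1) else 0 := by
    rw [← sum_add_distrib, ← sum_add_distrib]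
    refine sum_le_sum fun k hk => ?_
    obtain ⟨hki, hk⟩ := mem_erase.1 hk
    have hk' := mem_range.1 hk
    rw [← hf k (by omega) hki]
    split_ifs with hpar
    · obtain ⟨t, e1, e2, ht⟩ := hd k hki
      rw [e1, e2]
      have sy : ∀ s s', (s = i ∨ s = i + 1 ∨ s = i + 2 ∨ s = i + 3) →
          (s' = i ∨ s' = i + 1 ∨ s' = i + 2 ∨ s' = i + 3) →
          c1 (p s) (p s') (p t) (p (t + 1)) = c1 (p t) (p (t + 1)) (p s) (p s') :=
        fun s s' h h' => c1_symm (hne _ _ (by omega) (by omega) (by omega))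
          (hne _ _ (by omega) (by omega) (by omega)) (hne _ _ (by omega) (by omega) (by omega))
          (hne _ _ (by omega) (by omega) (by omega))
      rw [sy i (i + 3) (by omega) (by omega), sy i (i + 1) (by omega) (by omega),
        sy (i + 2) (i + 3) (by omega) (by omega), sy (i + 1) (i + 2) (by omega) (by omega)]
      have t1 := c1_tri (p t) (p (t + 1)) (p i) (p (i + 1)) (p (i + 3))
      have t2 := c1_tri (p t) (p (t + 1)) (p (i + 1)) (p (i + 2)) (p (i + 3))
      omega
    · omega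
  omega

end Pool.Agent.MP_d5eec5_gt.H77
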